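import Mathlib

namespace Pool.Agent.Results.MP_322323_co.Counter

/-- Binary partial words: `none` is a hole, `some false` is `0`, `some true` is `1`. -/
abbrev PWord := List (Option Bool)

/-- `u ⊂ v` for a partial word `u` and a full word `v` of the same length. -/
def Sub (u : PWord) (v : List Bool) : Prop :=
  List.Forall₂ (fun a b => a = none ∨ a = some b) u v

/-- `Sq w`: the number of nonempty full words `x` such that some factor `u` of `w` with
`|u| = 2|x|` satisfies `u ⊂ xx`. -/
noncomputable def Sq (w : PWord) : ℕ :=
  {x : List Bool | x ≠ [] ∧ ∃ u : PWord, u <:+: w ∧ u.length = 2 * x.length ∧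
    Sub u (x ++ x)}.ncard

/-- `w'` is obtained from `w` by replacing exactly one hole by a letter. -/
def Strengthening (w w' : PWord) : Prop :=
  ∃ (i : ℕ) (c : Bool), w[i]? = some none ∧ w' = w.set i (some c)

/-- All differences `Sq w - Sq w'` with `|w| = n`, `h` holes in `w`, and `w'` a strengthening
of `w`; `Δ_h Sq(n)` is the greatest element of this set. -/
def Drops (h n : ℕ) : Set ℤ :=
  {d | ∃ w w' : PWord, w.length = n ∧ w.count none = h ∧ Strengthening w w' ∧
    d = (Sq w : ℤ) - Sq w'}

def all : ℕ → List (List Bool)
  | 0 => [[]]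
  | n + 1 => (all n).flatMap fun x => [false :: x, true :: x]

lemma mem_all (x : List Bool) : x ∈ all x.length := by
  induction x with
  | nil => simp [all]
  | cons a x ih =>
    simp only [List.length_cons, all, List.mem_flatMap]
    exact ⟨x, ih, by cases a <;> simp⟩

def fa : PWord → List Bool → Bool
  | [], [] => true
  | a :: u, b :: v => (a == none || a == some b) && fa u v
  | _, _ => false

lemma fa_iff (u : PWord) (v : List Bool) : fa u v = true ↔ Sub u v := by
  unfold Sub
  induction u generalizing v with
  | nil => cases v <;> simp [fa]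
  | cons a u ih =>
    cases v with
    | nil => simp [fa]
    | cons b v => simp [fa, ih]

def chk (w : PWord) (x : List Bool) : Bool :=
  !x.isEmpty && (List.range 23).any fun i => fa ((w.drop i).take (2 * x.length)) (x ++ x)

def F (w : PWord) : List (List Bool) := ((List.range 12).flatMap all).filter (chk w)

lemma Sq_eq (w : PWord) (hw : w.length = 22) (hn : (F w).Nodup) : Sq w = (F w).length := by
  rw [← List.toFinset_card_of_nodup hn, ← Set.ncard_coe_finset]
  unfold Sq
  congr 1
  ext x
  simp only [Set.mem_setOf_eq, List.coe_toFinset, F, List.mem_filter, List.mem_flatMap,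
    List.mem_range, chk, Bool.and_eq_true, Bool.not_eq_true', List.isEmpty_eq_false_iff,
    List.any_eq_true, fa_iff]
  constructor
  · rintro ⟨hx, u, ⟨s, t, e⟩, hl, hs⟩
    have hlen := congrArg List.length e
    simp only [List.length_append] at hlen
    refine ⟨⟨x.length, by omega, mem_all x⟩, hx, s.length, by omega, ?_⟩
    have : (w.drop s.length).take (2 * x.length) = u := by
      rw [← e, ← hl, List.append_assoc, List.drop_left, List.take_left]
    rw [this]
    exact hs
  · rintro ⟨-, hx, i, -, hs⟩
    refine ⟨hx, _, (List.take_prefix _ _).isInfix.trans (List.drop_suffix i w).isInfix, ?_, hs⟩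
    have := List.Forall₂.length_eq hs
    rw [this, List.length_append]
    omega

def o : Option Bool := some false
def l : Option Bool := some true

/-- The word `0111110111◇◇1011111011`. -/
def w0 : PWord := [o, l, l, l, l, l, o, l, l, l, none, none, l, o, l, l, l, l, l, o, l, l]

lemma c1 : (F w0).Nodup ∧ (F w0).length = 23 := by decide +kernel

lemma c2 : (F (w0.set 11 (some false))).Nodup ∧ (F (w0.set 11 (some false))).length = 8 := by
  decide +kernel

lemma mem15 : (15 : ℤ) ∈ Drops 2 22 := by
  refine ⟨w0, w0.set 11 (some false), by decide, by decide, ⟨11, false, by decide, rfl⟩, ?_⟩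
  rw [Sq_eq w0 (by decide) c1.1, Sq_eq _ (by decide) c2.1, c1.2, c2.2]
  norm_num

theorem result : (15 : ℤ) ∈ Drops 2 22 ∧
    ¬ ∀ n : ℕ, 8 ≤ n → IsGreatest (Drops 2 n) ((7 * (n - 1) / 10 : ℕ) : ℤ) := by
  refine ⟨mem15, fun hall => ?_⟩
  have h1 := (hall 22 (by norm_num)).2 mem15
  norm_num at h1

end Pool.Agent.Results.MP_322323_co.Counter
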